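import Pool.Agent.Helper819.DC.Asm5

/-!
# The normalisation of the `δ`-constant stratum of a plane curve singularity is smooth

`K` is an algebraically closed field of arbitrary characteristic (in particular of characteristic
`p > 0`), `K[[x,y]]` is modelled as `K⟦X⟧⟦X⟧ = K[[x]][[y]]` with `x = C X` and `y = X`, and
`C = Spec (K[[x,y]]/(f))` is a plane curve singularity. `g₁, …, g_τ` is a `K`-basis of the Tjurina
algebra and `F = f + ∑ tₖ gₖ` is the semiuniversal deformation over the smooth germ `(S,0)`,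
`S = K[[t₁,…,t_τ]]`.

An arc in `(S,0)` is a `K`-algebra homomorphism `α : K[[t₁,…,t_τ]] → K[[u]]` (it is automatically
local). Its geometric generic fibre is `Ω ⊗_{K[[u]]} K[[u]][[x,y]]/(F_α)`, where `Ω` is the
algebraic closure of `K((u))` and `F_α = f + ∑ α(tₖ) gₖ`; its maximal ideals are the points of the
geometric generic fibre that specialise to the origin, and its `δ`-invariant
`dim_Ω (normalisation / ring)` is the sum of the `δ`-invariants of these points. The arc is
`δ`-constant if this equals `δ(C)`. The `δ`-constant stratum `Δ` is the reduced closed subgerm whose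
arcs are the `δ`-constant ones.
-/

open PowerSeries TensorProduct

universe u

namespace Pool.Agent.Results.MP_f5cee0_ag.SmoothNormalisation

/-! ### Plane curve singularities and the semiuniversal family -/

/-- coefficientwise extension of scalars `K[[x,y]] → A[[x,y]]` for a `K`-algebra `A` -/
noncomputable def extend {K : Type u} [CommRing K] (A : Type u) [CommRing A] [Algebra K A] :
    K⟦X⟧⟦X⟧ →+* A⟦X⟧⟦X⟧ :=
  PowerSeries.map (PowerSeries.map (algebraMap K A))

/-- the constants `A → A[[x,y]]` -/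
noncomputable def const {A : Type u} [CommRing A] : A →+* A⟦X⟧⟦X⟧ :=
  (PowerSeries.C (R := A⟦X⟧)).comp PowerSeries.C

/-- the partial derivative of `h ∈ K[[x]][[y]]` with respect to `x` (coefficientwise) -/
noncomputable def partialX {K : Type u} [CommRing K] (h : K⟦X⟧⟦X⟧) : K⟦X⟧⟦X⟧ :=
  PowerSeries.mk fun n => PowerSeries.derivative K (PowerSeries.coeff n h)

/-- the partial derivative of `h ∈ K[[x]][[y]]` with respect to `y` -/
noncomputable def partialY {K : Type u} [CommRing K] (h : K⟦X⟧⟦X⟧) : K⟦X⟧⟦X⟧ :=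
  PowerSeries.derivative (K⟦X⟧) h

/-- the ideal `(f, ∂f/∂x, ∂f/∂y)` of `K[[x,y]]`; the quotient is the Tjurina algebra -/
noncomputable def tjurinaIdeal {K : Type u} [CommRing K] (f : K⟦X⟧⟦X⟧) : Ideal K⟦X⟧⟦X⟧ :=
  Ideal.span {f, partialX f, partialY f}

/-- `K[[x,y]]/(f)` is the ring of a (reduced) plane curve singularity -/
def IsPlaneCurveSingularity {K : Type u} [Field K] (f : K⟦X⟧⟦X⟧) : Prop :=
  f ≠ 0 ∧ ¬ IsUnit f ∧ IsReduced (K⟦X⟧⟦X⟧ ⧸ Ideal.span {f})

/-- the classes of `g₁, …, g_τ` are a `K`-basis of the Tjurina algebra of `f`: every power series is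
congruent modulo the Tjurina ideal to exactly one `K`-linear combination of the `gₖ` -/
def IsTjurinaBasis {K : Type u} [Field K] (f : K⟦X⟧⟦X⟧) {τ : ℕ} (g : Fin τ → K⟦X⟧⟦X⟧) : Prop :=
  ∀ h : K⟦X⟧⟦X⟧, ∃! c : Fin τ → K, h - ∑ k, c k • g k ∈ tjurinaIdeal f

/-- the member `f + ∑ sₖ gₖ ∈ A[[x,y]]` of the family with parameters `sₖ ∈ A` -/
noncomputable def family {K : Type u} [CommRing K] (f : K⟦X⟧⟦X⟧) {τ : ℕ}
    (g : Fin τ → K⟦X⟧⟦X⟧) {A : Type u} [CommRing A] [Algebra K A] (s : Fin τ → A) : A⟦X⟧⟦X⟧ :=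
  extend A f + ∑ k, const (s k) * extend A (g k)

/-! ### `δ`-invariants -/

/-- the image of `R` in its integral closure in `Q` -/
noncomputable def ringImage (R Q : Type u) [CommRing R] [CommRing Q] [Algebra R Q] :
    Submodule R (integralClosure R Q) :=
  LinearMap.range (Algebra.linearMap R (integralClosure R Q))

/-- for `k → R → Q`: the `k`-dimension of (integral closure of `R` in `Q`)`/R`, where `k` acts
through `k → R` (a cardinal, so there is no junk value) -/
noncomputable def deltaIn (k R Q : Type u) [Field k] [CommRing R] [Algebra k R] [CommRing Q]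
    [Algebra R Q] : Cardinal.{u} :=
  @Module.rank k (integralClosure R Q ⧸ ringImage R Q) _ _ (Module.compHom _ (algebraMap k R))

/-- the (total) `δ`-invariant `dim_k (R̄/R)` of a `k`-algebra `R`: here `R̄` is the integral closure of
`R` in its total ring of fractions -/
noncomputable def delta (k R : Type u) [Field k] [CommRing R] [Algebra k R] : Cardinal.{u} :=
  deltaIn k R (FractionRing R)

/-- `δ(C)` for the curve `f = 0` -/
noncomputable def curveDelta {K : Type u} [Field K] (f : K⟦X⟧⟦X⟧) : Cardinal.{u} :=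
  delta K (K⟦X⟧⟦X⟧ ⧸ Ideal.span {f})

/-- the (total) `δ`-invariant of the fibre `E ⊗_A A[[x,y]]/(G)`, over a field `E`, of the family
`A → A[[x,y]]/(G)` -/
noncomputable def fibreDelta (A E : Type u) [CommRing A] [Field E] [Algebra A E]
    (G : A⟦X⟧⟦X⟧) : Cardinal.{u} :=
  delta E (E ⊗[A] (A⟦X⟧⟦X⟧ ⧸ Ideal.span {G}))

/-! ### The `δ`-constant stratum -/

/-- arcs `Spec K[[u]] → (S,0)` in the base `S = K[[t₁,…,t_τ]]` of the semiuniversal deformation -/
abbrev Arc (K : Type u) [Field K] (τ : ℕ) : Type u := MvPowerSeries (Fin τ) K →ₐ[K] K⟦X⟧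

/-- the (total) `δ`-invariant of the geometric generic fibre of the family induced by the arc `α` -/
noncomputable def genericDelta {K : Type u} [Field K] (f : K⟦X⟧⟦X⟧) {τ : ℕ}
    (g : Fin τ → K⟦X⟧⟦X⟧) (α : Arc K τ) : Cardinal.{u} :=
  fibreDelta K⟦X⟧ (AlgebraicClosure (LaurentSeries K))
    (family f g fun k => α (MvPowerSeries.X k))

/-- the arc `α` is `δ`-constant -/
def DeltaConstant {K : Type u} [Field K] (f : K⟦X⟧⟦X⟧) {τ : ℕ} (g : Fin τ → K⟦X⟧⟦X⟧)
    (α : Arc K τ) : Prop := genericDelta f g α = curveDelta f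

/-- the ideal of the `δ`-constant stratum `Δ ⊆ (S,0)`: all functions vanishing on every
`δ`-constant arc -/
noncomputable def deltaIdeal {K : Type u} [Field K] (f : K⟦X⟧⟦X⟧) {τ : ℕ}
    (g : Fin τ → K⟦X⟧⟦X⟧) : Ideal (MvPowerSeries (Fin τ) K) :=
  ⨅ (α : Arc K τ) (_ : DeltaConstant f g α), RingHom.ker α

/-- the local ring of `Δ` -/
abbrev StratumRing {K : Type u} [Field K] (f : K⟦X⟧⟦X⟧) {τ : ℕ} (g : Fin τ → K⟦X⟧⟦X⟧) : Type u :=
  MvPowerSeries (Fin τ) K ⧸ deltaIdeal f g

/-! ### Smoothness of the normalisation -/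

/-- the integral closure of `R` in `Q` is finite over `R` and isomorphic, over `K`, to a ring of
formal power series `K[[z₁,…,z_m]]` -/
def SmoothClosure (K R Q : Type u) [Field K] [CommRing R] [Algebra K R] [CommRing Q] [Algebra R Q]
    [Algebra K Q] [IsScalarTower K R Q] : Prop :=
  Module.Finite R (integralClosure R Q) ∧
    ∃ m : ℕ, Nonempty (integralClosure R Q ≃ₐ[K] MvPowerSeries (Fin m) K)

/-- the normalisation of the germ with ring `R`, that is, the integral closure of `R` in its total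
ring of fractions, is finite over `R` and smooth -/
def SmoothNormalisation (K R : Type u) [Field K] [CommRing R] [Algebra K R] : Prop :=
  SmoothClosure K R (FractionRing R)

open Pool.Agent.Helper819

theorem rank_compHom (k R M : Type u) [Field k] [CommRing R] [Algebra k R] [AddCommGroup M]
    [Module R M] [i2 : Module k M] [IsScalarTower k R M] :
    @Module.rank k M _ _ (Module.compHom M (algebraMap k R)) = @Module.rank k M _ _ i2 := by
  have h : Module.compHom M (algebraMap k R) = i2 := by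
    refine Module.ext' _ _ ?_
    intro c x
    exact algebraMap_smul R c x
  rw [h]

theorem delta_eq (k R : Type u) [Field k] [CommRing R] [Algebra k R] :
    delta k R = DC.delta k R :=
  rank_compHom k R (integralClosure R (FractionRing R) ⧸
        LinearMap.range (Algebra.linearMap R (integralClosure R (FractionRing R))))

theorem result {K : Type u} [Field K] [IsAlgClosed K] (f : K⟦X⟧⟦X⟧)
    (hf : IsPlaneCurveSingularity f) {τ : ℕ} (g : Fin τ → K⟦X⟧⟦X⟧) (hg : IsTjurinaBasis f g) :
    -- `δ(C)` is finite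
    (∃ δ : ℕ, curveDelta f = δ) ∧
    -- the arcs in `Δ` are exactly the `δ`-constant ones
    (∀ α : Arc K τ, DeltaConstant f g α ↔ deltaIdeal f g ≤ RingHom.ker α) ∧
    -- `Δ` is reduced and irreducible
    (deltaIdeal f g).IsPrime ∧
    -- the normalisation of `Δ` is smooth
    SmoothNormalisation K (StratumRing f g) := by
  obtain ⟨hf0, hfu, hred⟩ := hf
  obtain ⟨r, φ, d, hr, hker, hd, hcond⟩ := DC.L1G.exists_param' DC.tools DC.baseFacts
    (fun f hreg hu hred => DC.L1R.exists_param DC.baseFacts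
      (fun D _ _ _ i hi hf => DC.hnorm1 D i hi hf) f hreg hu hred) f hf0 hfu hred
  have hspan : ∀ h : K⟦X⟧⟦X⟧, ∃ (σ : Fin τ → K) (c a b : K⟦X⟧⟦X⟧),
      h = ∑ k, σ k • g k + c * f + a * DC.dx f + b * DC.dy f := by
    intro h
    obtain ⟨σ, h2, -⟩ := hg h
    rw [tjurinaIdeal, Ideal.mem_span_insert] at h2
    obtain ⟨c, z, hz, h3⟩ := h2
    obtain ⟨a, b, hab⟩ := Ideal.mem_span_pair.mp hz
    refine ⟨σ, c, a, b, ?_⟩
    have h4 : DC.dx f = partialX f := rfl
    have h5 : DC.dy f = partialY f := rfl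
    rw [h4, h5, add_assoc, add_assoc, hab, ← h3]
    ring
  let D : DC.Setup K τ r :=
    { f := f, g := g, φ := φ, hf := hf0, ker := hker, d := d, hd := hd, cond := hcond,
      span := hspan }
  obtain ⟨T⟩ := DC.tbasis D
  obtain ⟨U⟩ := DC.univ_all D T
  obtain ⟨θ, hθ⟩ := DC.exists_theta D T U
  have hδ : curveDelta f = (D.delta : Cardinal) := by
    unfold curveDelta
    rw [delta_eq]
    exact DC.DCK.delta_special D DC.hnorm DC.hpi
  have hiff : ∀ α : Arc K τ, DeltaConstant f g α ↔ RingHom.ker θ ≤ RingHom.ker α := by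
    intro α
    rw [← DC.deltaConst_iff D hr T U θ hθ α]
    unfold DeltaConstant genericDelta fibreDelta
    rw [hδ, delta_eq]
    rfl
  have hJ : deltaIdeal f g = RingHom.ker θ := by
    apply le_antisymm
    · intro x hx
      by_contra hne
      obtain ⟨β, hβ⟩ := DC.MVN2.exists_arc (θ x) (fun h => hne h)
      have h1 : DeltaConstant f g (β.comp θ) := by
        rw [hiff]
        intro a ha
        rw [RingHom.mem_ker] at ha ⊢
        rw [AlgHom.comp_apply, ha, map_zero]
      have h2 : x ∈ RingHom.ker (β.comp θ) := by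
        have := (Ideal.mem_iInf.mp hx) (β.comp θ)
        exact (Ideal.mem_iInf.mp this) h1
      exact hβ h2
    · exact le_iInf fun α => le_iInf fun hα => (hiff α).mp hα
  obtain ⟨⟨e⟩, hfin⟩ := DC.theta_norm' D T U θ hθ (deltaIdeal f g) hJ
  refine ⟨⟨D.delta, hδ⟩, fun α => by rw [hJ]; exact hiff α, ?_, hfin, T.m, ⟨e⟩⟩
  rw [hJ]
  exact RingHom.ker_isPrime θ.toRingHom

end Pool.Agent.Results.MP_f5cee0_ag.SmoothNormalisation
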